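import Pool.Agent.H35.UP.Up
import Pool.Agent.H25.ADJ.Adj
import Pool.Agent.H24.MIC.DmG

/-!
# Upper bounds for the base given the labels or the contexts at two places, from `Ok2`
-/

set_option autoImplicit false

namespace Pool.UP35

open Finset Real MvPolynomial
open Pool.Agent.H49.Ent Pool.Agent.H32.Dense Pool.STK Pool.STAT
open Pool.BFL (Pb)
open Pool.MIC24 (Rc)

open Classical in
theorem Pb_union {Ω ι : Type} [Fintype Ω] {q : Ω → ℝ} (hq : ∀ ω, 0 ≤ q ω) (S : Finset ι)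
    (A : ι → Ω → Prop) {η : ℝ} (h : ∀ i ∈ S, Pb q (A i) ≤ η) :
    Pb q (fun ω => ∃ i ∈ S, A i ω) ≤ #S * η := by
  have h1 : Pb q (fun ω => ∃ i ∈ S, A i ω) ≤ ∑ i ∈ S, Pb q (A i) := by
    unfold Pb
    rw [Finset.sum_comm]
    refine Finset.sum_le_sum fun ω _ => ?_
    by_cases hA : ∃ i ∈ S, A i ω
    · obtain ⟨i, hi, hAi⟩ := hA
      rw [if_pos ⟨i, hi, hAi⟩]
      have h2 := Finset.single_le_sum (f := fun i => if A i ω then q ω else 0) (fun i _ => by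
        split_ifs
        · exact hq ω
        · exact le_rfl) hi
      simp only [if_pos hAi] at h2
      exact h2
    · rw [if_neg hA]
      refine Finset.sum_nonneg fun i _ => ?_
      split_ifs
      · exact hq ω
      · exact le_rfl
  refine h1.trans ((Finset.sum_le_sum h).trans ?_)
  rw [sum_const, nsmul_eq_mul]

/-- **Neighbouring labels agree** along a path. -/
theorem agr_path (n K Nd : ℕ) (lam gam : ℕ → ℝ) (C₁ : ℝ) (hC₁ : 1 ≤ C₁)
    (hlam : ∀ l, 1 ≤ lam l) (hgam : ∀ l, 0 ≤ gam l) : ∃ C : ℝ, 1 ≤ C ∧ ∀ (N : ℕ) (η : ℝ), 0 < η →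
    ∃ (κ₀ : ℝ) (z₀ : ℕ), 0 < κ₀ ∧ ∀ (J a₀ w₀ z M : ℕ) (κ : ℝ) (D : NDat2) (q : D.Ω → ℝ)
      (b d : ℤ × ℤ) (r : ℕ), z₀ ≤ z → κ ≤ κ₀ → D.Ok2 n K J a₀ w₀ z M lam gam κ C₁ q → r ≤ N →
      |d.1| ≤ Nd → |d.2| ≤ Nd →
      (∀ k ≤ r, 0 ≤ (b + k • d).1 ∧ (b + k • d).1 + Nd + 1 ≤ M ∧ 0 ≤ (b + k • d).2 ∧
        (b + k • d).2 ≤ M) →
      Pb q (fun ω => ¬ ∀ k < r, AgrZ D n (b + k • d) (b + (k + 1) • d) (Real.exp (C * z)) ω) ≤
        η := by
  obtain ⟨C, hC, h⟩ := Pool.ADJ.adj n K (2 * Nd) lam gam C₁ 0 hC₁ le_rfl hlam hgam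
  refine ⟨C, hC, fun N η hη => ?_⟩
  obtain ⟨κ₀, z₀, hκ₀, h2⟩ := h (η / (N + 1)) (by positivity)
  refine ⟨κ₀, z₀, hκ₀, ?_⟩
  intro J a₀ w₀ z M κ D q b d r hz hκ hO hr hd1 hd2 hin
  have hq := hO.isLaw.nonneg
  have hone : ∀ k ∈ range r, Pb q (fun ω => ¬ AgrZ D n (b + k • d) (b + (k + 1) • d)
      (Real.exp (C * z)) ω) ≤ η / (N + 1) := by
    intro k hk
    have hk' := mem_range.1 hk
    obtain ⟨a1, a2, a3, a4⟩ := hin k hk'.le
    obtain ⟨b1, b2, b3, b4⟩ := hin (k + 1) hk'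
    obtain ⟨c1, c2⟩ := abs_le.1 hd1
    obtain ⟨c3, c4⟩ := abs_le.1 hd2
    have s1 : (b + (k + 1) • d).1 = (b + k • d).1 + d.1 := by
      rw [Prod.fst_add, Prod.fst_add, Prod.smul_fst, Prod.smul_fst, succ_nsmul]
      ring
    have s2 : (b + (k + 1) • d).2 = (b + k • d).2 + d.2 := by
      rw [Prod.snd_add, Prod.snd_add, Prod.smul_snd, Prod.smul_snd, succ_nsmul]
      ring
    obtain ⟨i, hi⟩ : ∃ i : ℕ, i = (b + k • d).1.toNat := ⟨_, rfl⟩
    obtain ⟨j, hj⟩ : ∃ j : ℕ, j = (b + k • d).2.toNat := ⟨_, rfl⟩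
    obtain ⟨i', hi'⟩ : ∃ i : ℕ, i = (b + (k + 1) • d).1.toNat := ⟨_, rfl⟩
    obtain ⟨j', hj'⟩ : ∃ j : ℕ, j = (b + (k + 1) • d).2.toNat := ⟨_, rfl⟩
    have f1 : (i : ℤ) = (b + k • d).1 := by rw [hi]; exact Int.toNat_of_nonneg a1
    have f2 : (j : ℤ) = (b + k • d).2 := by rw [hj]; exact Int.toNat_of_nonneg a3
    have f3 : (i' : ℤ) = (b + (k + 1) • d).1 := by rw [hi']; exact Int.toNat_of_nonneg b1
    have f4 : (j' : ℤ) = (b + (k + 1) • d).2 := by rw [hj']; exact Int.toNat_of_nonneg b3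
    have main := h2 J a₀ w₀ z M κ D q hz hκ hO i j i' j'
      (max (i + (max j j' - j)) (i' + (max j j' - j'))) (max j j') (le_max_left _ _)
      (le_max_right _ _) (le_max_left _ _) (le_max_right _ _) (by omega) (by omega) (by omega)
      (by omega)
    refine le_trans (Pool.MIC.Frm.Pb_supp hq fun ω hω hb => ?_) main
    intro hc
    refine hb fun l hl hln x hx hx2 => ?_
    have e1 := hc l hl hln x hx (fun k' hk1 hk2 => by
      rw [zero_mul, Real.exp_zero]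
      have := hx2 k' hk1 hk2
      rw [← hi, ← hj] at this
      exact this)
    rw [← hi, ← hj, ← hi', ← hj']
    exact e1
  have h3 := Pb_union hq (range r) (fun k ω => ¬ AgrZ D n (b + k • d) (b + (k + 1) • d)
    (Real.exp (C * z)) ω) hone
  refine le_trans (Pool.MIC.Frm.Pb_supp hq fun ω hω hb => ?_) (h3.trans ?_)
  · push Not at hb
    obtain ⟨k, hk, hk2⟩ := hb
    exact ⟨k, mem_range.2 hk, hk2⟩
  · rw [card_range, mul_div_assoc', div_le_iff₀ (by positivity)]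
    have : (r : ℝ) ≤ N := by exact_mod_cast hr
    nlinarith

/-- **Upper bound.** The digits at `b` of the coordinates `1, …, m` given the labels at `b` and at
`b + r d` and the exact time. -/
theorem up_lab (n K Nd : ℕ) (lam gam : ℕ → ℝ) (C₁ c₀ : ℝ) (hC₁ : 1 ≤ C₁)
    (hlam : ∀ l, 1 ≤ lam l) (hgam : ∀ l, 0 ≤ gam l) (hc₀ : 0 < c₀) : ∃ C : ℝ, 1 ≤ C ∧
    ∀ (N : ℕ) (η : ℝ), 0 < η → ∃ (κ₀ : ℝ) (z₀ : ℕ), 0 < κ₀ ∧
    ∀ (J a₀ w₀ z M : ℕ) (κ : ℝ) (D : NDat2) (q : D.Ω → ℝ) (b d : ℤ × ℤ) (r m X : ℕ) (Y : Type)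
      (y : D.Ω → Y), z₀ ≤ z →
      κ ≤ κ₀ → D.Ok2 n K J a₀ w₀ z M lam gam κ C₁ q → m ≤ n → r ≤ N → |d.1| ≤ Nd → |d.2| ≤ Nd →
      (∀ k ≤ r, 0 ≤ (b + k • d).1 ∧ (b + k • d).1 + Nd + 1 ≤ M ∧ 0 ≤ (b + k • d).2 ∧
        (b + k • d).2 ≤ M) →
      (∀ l, 1 ≤ l → l ≤ m → c₀ ≤ |mu lam gam d l|) → (X : ℝ) ≤ c₀ * r * z →
      Det q y (Sc D (b + r • d)) → Det q y (Sc D b) → Det q y D.T →
      CH q (dgb D m X b) y ≤ #(coa m lam gam d) * (X * Real.log 2) + C * z + η * X := by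
  obtain ⟨C₂, hC₂, h1⟩ := agr_path n K Nd lam gam C₁ hC₁ hlam hgam
  obtain ⟨C, hC, h2⟩ := up n K C₁ C₂ c₀ hc₀
  have hl2 : 0 < Real.log 2 := Real.log_pos (by norm_num)
  have hl3 : Real.log 2 ≤ 1 := by
    have := Real.log_two_lt_d9
    linarith
  refine ⟨C + 2, by linarith, fun N η hη => ?_⟩
  have hη' : 0 < min 1 η / (n + 1) := div_pos (lt_min one_pos hη) (by positivity)
  obtain ⟨κ₀, z₀, hκ₀, h3⟩ := h1 N (min 1 η / (n + 1)) hη'
  obtain ⟨z₁, h4⟩ := h2 N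
  refine ⟨κ₀, max (max z₀ z₁) 1, hκ₀, ?_⟩
  intro J a₀ w₀ z M κ D q b d r m X Y y hz hκ hO hm hr hd1 hd2 hin hmu hX dr db dT
  have hz1 : (1 : ℝ) ≤ z := by exact_mod_cast (le_max_right _ _).trans hz
  have hp := h3 J a₀ w₀ z M κ D q b d r (((le_max_left _ _).trans (le_max_left _ _)).trans hz) hκ
    hO hr hd1 hd2 hin
  have main := h4 J a₀ w₀ z M lam gam κ D q b d r m X _ Y y
    (((le_max_right _ _).trans (le_max_left _ _)).trans hz) hO hm hr (fun k hk => by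
      obtain ⟨a1, a2, a3, a4⟩ := hin k hk
      exact ⟨a1, by omega, a3, a4⟩) hmu hX hp dr db dT
  refine main.trans ?_
  have hmn : (m : ℝ) ≤ n + 1 := by
    have : (m : ℝ) ≤ n := by exact_mod_cast hm
    linarith
  have e1 : min 1 η / (n + 1) * (m * (X * Real.log 2 + 2 * Real.log 2)) ≤ η * X + 2 := by
    have hX0 : (0 : ℝ) ≤ X := Nat.cast_nonneg _
    have a1 : min 1 η / (n + 1) * m ≤ min 1 η := by
      rw [div_mul_eq_mul_div, div_le_iff₀ (by positivity)]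
      exact mul_le_mul_of_nonneg_left hmn (lt_min one_pos hη).le
    have a2 : 0 ≤ X * Real.log 2 + 2 * Real.log 2 := by positivity
    calc min 1 η / (n + 1) * (m * (X * Real.log 2 + 2 * Real.log 2))
        = min 1 η / (n + 1) * m * (X * Real.log 2 + 2 * Real.log 2) := by ring
      _ ≤ min 1 η * (X * Real.log 2 + 2 * Real.log 2) := mul_le_mul_of_nonneg_right a1 a2
      _ = min 1 η * (X * Real.log 2) + min 1 η * (2 * Real.log 2) := by ring
      _ ≤ η * X + 2 := by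
          refine add_le_add ?_ ?_
          · refine mul_le_mul (min_le_right _ _) ?_ (by positivity) hη.le
            nlinarith
          · have : min 1 η ≤ 1 := min_le_left _ _
            have : 0 < min 1 η := lt_min one_pos hη
            nlinarith
  have e2 : (C + 2) * (z : ℝ) = C * z + 2 * z := by ring
  rw [e2]
  linarith

/-- **Upper bound.** The digits at `b` of the coordinates `1, …, m` given the contexts at `b` and at
`b + r d` and the exact time. -/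
theorem up_ok (n K Nd : ℕ) (lam gam : ℕ → ℝ) (C₁ c₀ : ℝ) (hC₁ : 1 ≤ C₁)
    (hlam : ∀ l, 1 ≤ lam l) (hgam : ∀ l, 0 ≤ gam l) (hc₀ : 0 < c₀) : ∃ C : ℝ, 1 ≤ C ∧
    ∀ (N : ℕ) (η : ℝ), 0 < η → ∃ (κ₀ : ℝ) (z₀ : ℕ), 0 < κ₀ ∧
    ∀ (J a₀ w₀ z M : ℕ) (κ : ℝ) (D : NDat2) (q : D.Ω → ℝ) (b d : ℤ × ℤ) (r m X : ℕ), z₀ ≤ z →
      κ ≤ κ₀ → D.Ok2 n K J a₀ w₀ z M lam gam κ C₁ q → m ≤ n → r ≤ N → |d.1| ≤ Nd → |d.2| ≤ Nd →
      (∀ k ≤ r, 0 ≤ (b + k • d).1 ∧ (b + k • d).1 + Nd + 1 ≤ M ∧ 0 ≤ (b + k • d).2 ∧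
        (b + k • d).2 ≤ M) →
      (∀ l, 1 ≤ l → l ≤ m → c₀ ≤ |mu lam gam d l|) → (X : ℝ) ≤ c₀ * r * z →
      CH q (dgb D m X b) (fun ω => (Rc D (b + r • d) ω, (Rc D b ω, D.T ω))) ≤
        #(coa m lam gam d) * (X * Real.log 2) + C * z + η * X := by
  obtain ⟨C, hC, h⟩ := up_lab n K Nd lam gam C₁ c₀ hC₁ hlam hgam hc₀
  refine ⟨C, hC, fun N η hη => ?_⟩
  obtain ⟨κ₀, z₀, hκ₀, h2⟩ := h N η hη
  refine ⟨κ₀, z₀, hκ₀, ?_⟩
  intro J a₀ w₀ z M κ D q b d r m X hz hκ hO hm hr hd1 hd2 hin hmu hX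
  have hs : ∀ k ≤ r, Det q (fun ω => (Rc D (b + k • d) ω, D.T ω)) (Sc D (b + k • d)) := by
    intro k hk
    obtain ⟨a1, a2, a3, a4⟩ := hin k hk
    exact hO.s_c _ (by omega) _ (by omega)
  refine h2 J a₀ w₀ z M κ D q b d r m X _ _ hz hκ hO hm hr hd1 hd2 hin hmu hX ?_ ?_ ?_
  · intro ω ω' a a' hh
    exact hs r le_rfl ω ω' a a' (Prod.ext (Prod.ext_iff.1 hh).1
      (Prod.ext_iff.1 (Prod.ext_iff.1 hh).2).2)
  · intro ω ω' a a' hh
    have e := hs 0 (Nat.zero_le _)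
    rw [zero_smul, add_zero] at e
    exact e ω ω' a a' (Prod.ext_iff.1 hh).2
  · intro ω ω' a a' hh
    exact (Prod.ext_iff.1 (Prod.ext_iff.1 hh).2).2

section forms

variable {D : NDat2} {q : D.Ω → ℝ}

/-- The number of the coordinates which get coarser. -/
theorem coa_neg (m : ℕ) (lam gam : ℕ → ℝ) (d : ℤ × ℤ)
    (h : ∀ l, 1 ≤ l → l ≤ m → mu lam gam d l ≠ 0) :
    #(coa m lam gam d) + #(coa m lam gam (-d)) = m := by
  classical
  have e1 : coa m lam gam (-d) = (coa m lam gam d)ᶜ := by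
    ext l
    have h1 := h (l + 1) (by omega) l.2
    have h2 : mu lam gam (-d) (l + 1) = -mu lam gam d (l + 1) := by
      unfold mu
      push_cast [Prod.fst_neg, Prod.snd_neg]
      ring
    unfold coa
    rw [mem_compl, mem_filter, mem_filter, h2]
    constructor
    · rintro ⟨_, h3⟩ ⟨_, h4⟩
      linarith
    · intro h3
      refine ⟨mem_univ _, ?_⟩
      have h4 : ¬ mu lam gam d (l + 1) < 0 := fun h4 => h3 ⟨mem_univ _, h4⟩
      rcases lt_or_gt_of_ne h1 with h5 | h5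
      · exact absurd h5 h4
      · linarith
  rw [e1, card_compl, Fintype.card_fin]
  have := Finset.card_le_univ (coa m lam gam d)
  rw [Fintype.card_fin] at this
  omega

/-- The base. -/
theorem dgb_vd (n i j X : ℕ) : dgb D (n - 1) X ((i : ℤ), (j : ℤ)) = D.vd n i j X := by
  funext ω l
  unfold dgb NDat2.vd
  simp only [Int.toNat_natCast]

/-- The height and the base. -/
theorem dgb_nd (hq : ∀ ω, 0 ≤ q ω) {Y : Type} (y : D.Ω → Y) {n : ℕ} (hn : 1 ≤ n) (i j X : ℕ) :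
    CH q (fun ω => (D.nd n i j X ω, D.vd n i j X ω)) y =
      CH q (dgb D n X ((i : ℤ), (j : ℤ))) y := by
  refine CH_congr hq ?_ ?_ (fun _ _ _ _ h => h) (fun _ _ _ _ h => h)
  · intro ω ω' _ _ hh
    obtain ⟨h1, h2⟩ := Prod.ext_iff.1 (Prod.ext_iff.1 hh).1
    funext l
    have hl := l.2
    rcases Nat.lt_or_ge (l : ℕ) (n - 1) with h3 | h3
    · have h4 := congrFun h2 ⟨l, h3⟩
      unfold NDat2.vd at h4
      unfold dgb
      simp only [Int.toNat_natCast]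
      exact h4
    · have h5 : (l : ℕ) + 1 = n := by omega
      unfold NDat2.nd at h1
      unfold dgb
      simp only [Int.toNat_natCast, h5]
      exact h1
  · intro ω ω' _ _ hh
    have h1 := (Prod.ext_iff.1 hh).1
    refine Prod.ext ?_ ?_
    · have h4 := congrFun h1 ⟨n - 1, by omega⟩
      unfold dgb at h4
      simp only [Int.toNat_natCast, Nat.sub_add_cancel hn] at h4
      exact h4
    · funext l
      have hl := l.2
      have h4 := congrFun h1 ⟨l, by omega⟩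
      unfold dgb at h4
      simp only [Int.toNat_natCast] at h4
      exact h4

/-- From the two ends to the segment after the place. -/
theorem seg_right (hq : ∀ ω, 0 ≤ q ω) {S : Type} (A : D.Ω → S) (b d : ℤ × ℤ) (r : ℕ) :
    CH q A (fun ω => (Pool.DM.sg (Rc D) b d r ω, D.T ω)) ≤
      CH q A (fun ω => (Rc D (b + r • d) ω, (Rc D b ω, D.T ω))) := by
  refine CH_mono_cond hq fun ω ω' a a' hh => ?_
  obtain ⟨h1, h2⟩ := Prod.ext_iff.1 hh
  have h3 := Pool.DM.sg_pt (R := Rc D) b d (r := r) (t := 0) (Nat.zero_le _) q ω ω' a a' h1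
  rw [zero_smul, add_zero] at h3
  exact Prod.ext (Pool.DM.sg_pt (R := Rc D) b d (r := r) (t := r) le_rfl q ω ω' a a' h1)
    (Prod.ext h3 h2)

/-- From the two ends to the segment before the place. -/
theorem seg_left (hq : ∀ ω, 0 ≤ q ω) {S : Type} (A : D.Ω → S) (b d : ℤ × ℤ) (r : ℕ) :
    CH q A (fun ω => (Pool.DM.sg (Rc D) (b - r • d) d r ω, D.T ω)) ≤
      CH q A (fun ω => (Rc D (b + r • (-d)) ω, (Rc D b ω, D.T ω))) := by
  refine CH_mono_cond hq fun ω ω' a a' hh => ?_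
  obtain ⟨h1, h2⟩ := Prod.ext_iff.1 hh
  have h3 := Pool.DM.sg_pt (R := Rc D) (b - r • d) d (r := r) (t := 0) (Nat.zero_le _) q ω ω' a a'
    h1
  have h4 := Pool.DM.sg_pt (R := Rc D) (b - r • d) d (r := r) (t := r) le_rfl q ω ω' a a' h1
  rw [zero_smul, add_zero] at h3
  rw [sub_add_cancel] at h4
  have e : b + r • (-d) = b - r • d := by rw [smul_neg, sub_eq_add_neg]
  rw [e]
  exact Prod.ext h3 (Prod.ext h4 h2)

end forms

end Pool.UP35
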