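import Pool.Agent.H20.MIC.Ctx

/-!
# Few values given a part of the digits and a good sample
-/

set_option autoImplicit false

namespace Pool.UP35

open Finset Real
open Pool.Agent.H49.Ent Pool.Agent.H32.Dense Pool.STK
open Pool.BFL (Pb)

theorem log_card_Icc (X : ℕ) :
    Real.log ((Finset.Icc (-(2 : ℤ) ^ X) (2 ^ X)).card) ≤ X * Real.log 2 + 2 * Real.log 2 := by
  have e0 : ((Finset.Icc (-(2 : ℤ) ^ X) (2 ^ X)).card : ℤ) = 2 ^ X + 1 - -2 ^ X := by
    rw [Int.card_Icc]
    refine Int.toNat_of_nonneg ?_
    have : (0 : ℤ) < 2 ^ X := by positivity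
    linarith
  have e1 : ((Finset.Icc (-(2 : ℤ) ^ X) (2 ^ X)).card : ℝ) = 2 ^ X + 1 - -2 ^ X := by
    exact_mod_cast e0
  rw [e1]
  have h1 : (1 : ℝ) ≤ 2 ^ X := one_le_pow₀ (by norm_num)
  have h2 : (2 : ℝ) ^ X + 1 - -2 ^ X ≤ 2 ^ (X + 2) := by
    rw [pow_add]
    linarith
  refine (Real.log_le_log (by linarith) h2).trans (le_of_eq ?_)
  rw [Real.log_pow]
  push_cast
  ring

open Classical in
/-- **Few values** of the digits, given the digits of the coordinates in `co`. -/
theorem few_of_good {Ω Y : Type} [Fintype Ω] {q : Ω → ℝ} (hq : IsLaw q) (m X B : ℕ)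
    (dg : Ω → Fin m → ℤ) (co : Finset (Fin m)) (y : Ω → Y) (good : Ω → Prop) {η : ℝ}
    (hb : ∀ ω, 0 < q ω → ∀ l, |dg ω l| ≤ 2 ^ X)
    (hg : ∀ ω ω', 0 < q ω → 0 < q ω' → good ω → y ω = y ω' → (∀ l ∈ co, dg ω l = dg ω' l) →
      ∀ l, |dg ω l - dg ω' l| ≤ B)
    (hη : Pb q (fun ω => ¬ good ω) ≤ η) :
    CH q dg y ≤ #(co) * (X * Real.log 2 + 2 * Real.log 2) + m * Real.log (2 * B + 1) +
      η * (m * (X * Real.log 2 + 2 * Real.log 2)) := by
  have hl2 : 0 ≤ Real.log 2 := Real.log_nonneg (by norm_num)
  set L : ℝ := X * Real.log 2 + 2 * Real.log 2 with hL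
  have hL0 : 0 ≤ L := by positivity
  have hI : ∀ ω, 0 < q ω → ∀ l, dg ω l ∈ Finset.Icc (-(2 : ℤ) ^ X) (2 ^ X) := fun ω hω l => by
    rw [Finset.mem_Icc]
    exact abs_le.1 (hb ω hω l)
  set W : Ω → Fin m → ℤ := fun ω l => if l ∈ co then dg ω l else 0 with hW
  have h0 := CH_le_add hq.nonneg dg W y
  -- the coordinates in co
  have h1 : CH q W y ≤ #(co) * L := by
    refine (CH_le_card hq.nonneg hq.sum_one W y (fun _ => Fintype.piFinset fun l : Fin m =>
      if l ∈ co then Finset.Icc (-(2 : ℤ) ^ X) (2 ^ X) else {0}) fun ω hω => ?_).trans ?_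
    · rw [Fintype.mem_piFinset]
      intro l
      simp only [hW]
      split_ifs
      · exact hI ω hω l
      · exact Finset.mem_singleton_self _
    · rw [Ex_const hq.sum_one, Fintype.card_piFinset]
      have e1 : (∏ l : Fin m, (if l ∈ co then Finset.Icc (-(2 : ℤ) ^ X) (2 ^ X) else {0}).card) =
          (Finset.Icc (-(2 : ℤ) ^ X) (2 ^ X)).card ^ #(co) := by
        have e2 : ∀ l : Fin m, (if l ∈ co then Finset.Icc (-(2 : ℤ) ^ X) (2 ^ X) else {0}).card =
            if l ∈ co then (Finset.Icc (-(2 : ℤ) ^ X) (2 ^ X)).card else 1 := by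
          intro l
          split_ifs
          · rfl
          · exact Finset.card_singleton _
        rw [Finset.prod_congr rfl fun l _ => e2 l, Finset.prod_ite_mem, Finset.univ_inter,
          Finset.prod_const]
      rw [e1]
      push_cast
      rw [Real.log_pow]
      exact mul_le_mul_of_nonneg_left (log_card_Icc X) (Nat.cast_nonneg _)
  -- the others
  have h2 : CH q dg (fun ω => (W ω, y ω)) ≤ m * Real.log (2 * B + 1) + η * (m * L) := by
    set F : (Fin m → ℤ) × Y → Finset (Fin m → ℤ) := fun v =>
      if h : ∃ ω, 0 < q ω ∧ good ω ∧ W ω = v.1 ∧ y ω = v.2 then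
        Fintype.piFinset fun l : Fin m => Finset.Icc (dg h.choose l - B) (dg h.choose l + B)
      else Fintype.piFinset fun _ : Fin m => Finset.Icc (-(2 : ℤ) ^ X) (2 ^ X) with hF
    refine (CH_le_card hq.nonneg hq.sum_one dg (fun ω => (W ω, y ω)) F fun ω hω => ?_).trans ?_
    · simp only [hF]
      split_ifs with h
      · obtain ⟨a1, a2, a3, a4⟩ := h.choose_spec
        rw [Fintype.mem_piFinset]
        intro l
        have a5 := hg h.choose ω a1 hω a2 a4 (fun l hl => by
          have e := congrFun a3 l
          simp only [hW, if_pos hl] at e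
          exact e) l
        rw [Finset.mem_Icc]
        have := abs_le.1 a5
        constructor <;> linarith [this.1, this.2]
      · rw [Fintype.mem_piFinset]
        exact hI ω hω
    · have hlB : 0 ≤ Real.log (2 * B + 1) := Real.log_nonneg (by
        have : (0 : ℝ) ≤ B := Nat.cast_nonneg _
        linarith)
      have e1 : Ex q (fun ω => Real.log ((F (W ω, y ω)).card)) ≤
          Ex q (fun ω => m * Real.log (2 * B + 1) + if ¬ good ω then m * L else 0) := by
        refine Ex_mono hq.nonneg fun ω hω => ?_
        by_cases hgo : good ω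
        · have hex : ∃ ω', 0 < q ω' ∧ good ω' ∧ W ω' = (W ω, y ω).1 ∧ y ω' = (W ω, y ω).2 :=
            ⟨ω, hω, hgo, rfl, rfl⟩
          have e2 : (F (W ω, y ω)).card = (2 * B + 1) ^ m := by
            simp only [hF]
            rw [dif_pos hex, Fintype.card_piFinset, Finset.prod_congr rfl (g := fun _ => 2 * B + 1)
              (fun l _ => by rw [Int.card_Icc]; omega), Finset.prod_const, Finset.card_univ,
              Fintype.card_fin]
          rw [e2, if_neg (not_not.2 hgo), add_zero]
          push_cast
          rw [Real.log_pow]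
        · rw [if_pos hgo]
          by_cases hex : ∃ ω', 0 < q ω' ∧ good ω' ∧ W ω' = (W ω, y ω).1 ∧ y ω' = (W ω, y ω).2
          · have e2 : (F (W ω, y ω)).card = (2 * B + 1) ^ m := by
              simp only [hF]
              rw [dif_pos hex, Fintype.card_piFinset, Finset.prod_congr rfl
                (g := fun _ => 2 * B + 1) (fun l _ => by rw [Int.card_Icc]; omega),
                Finset.prod_const, Finset.card_univ, Fintype.card_fin]
            rw [e2]
            push_cast
            rw [Real.log_pow]
            have : 0 ≤ (m : ℝ) * L := by positivity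
            linarith
          · have e2 : (F (W ω, y ω)).card = (Finset.Icc (-(2 : ℤ) ^ X) (2 ^ X)).card ^ m := by
              simp only [hF]
              rw [dif_neg hex, Fintype.card_piFinset, Finset.prod_const, Finset.card_univ,
                Fintype.card_fin]
            rw [e2]
            push_cast
            rw [Real.log_pow]
            have a1 : (m : ℝ) * Real.log ((Finset.Icc (-(2 : ℤ) ^ X) (2 ^ X)).card) ≤ m * L :=
              mul_le_mul_of_nonneg_left (log_card_Icc X) (Nat.cast_nonneg _)
            have a2 : 0 ≤ (m : ℝ) * Real.log (2 * B + 1) := by positivity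
            linarith
      refine e1.trans ?_
      rw [Ex_add, Ex_const hq.sum_one]
      refine add_le_add le_rfl ?_
      have e3 : Ex q (fun ω => if ¬ good ω then (m : ℝ) * L else 0) =
          Pb q (fun ω => ¬ good ω) * (m * L) := by
        unfold Ex Pb
        rw [Finset.sum_mul]
        refine Finset.sum_congr rfl fun ω _ => ?_
        by_cases hgo : good ω
        · simp [hgo]
        · simp [hgo]
      rw [e3]
      exact mul_le_mul_of_nonneg_right hη (by positivity)
  linarith

end Pool.UP35
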