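import Pool.Agent.H7.MIC.Frz

/-!
# Two points in the boxes of the ends of a path of frames

Frames `(g k, Φ k)`, `k ≤ s`, such that neighbouring frames agree on the natural box of the first
one. Along the path every coordinate gets coarser or deeper. The point `X` is in all boxes, the
point `X'` is near `X` in the coarser coordinates in the frame `0` and in the box of the frame `s`
in the deeper coordinates. Then they are near in all coordinates, in all frames: their natural
distance in the frame `k` is at most `φ k`, up to a power of `N E`, `N ≥ s`. The exponent does not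
depend on the number of steps, and the growth rates of the coordinates are not compared.
-/

set_option autoImplicit false

namespace Pool.UP35

open Finset Real MvPolynomial
open Pool.STAT Pool.MIC.Frm

/-- A path of frames and two points. -/
structure Pf (n K s : ℕ) (g : ℕ → ℕ → ℕ) (Φ : ℕ → ℕ → PN) (t : ℝ) (X X' : ℕ → ℝ)
    (φ : ℕ → ℝ) (dp : ℕ → Prop) (N E : ℝ) : Prop where
  sN : (s : ℝ) ≤ N
  N1 : 1 ≤ N
  E1 : 1 ≤ E
  tri : ∀ k ≤ s, TriN (Φ k)
  deg : ∀ k ≤ s, ∀ i ≤ n, (Φ k i).totalDegree ≤ K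
  zero : ∀ k ≤ s, Φ k 0 = C t
  X0 : X 0 = t
  X0' : X' 0 = t
  fp : ∀ k ≤ s, 0 < φ k
  f1 : ∀ k ≤ s, φ k ≤ 1
  stp : ∀ k < s, φ k ≤ E * φ (k + 1)
  pos : ∀ k ≤ s, ∀ i, 1 ≤ i → i ≤ n → |nat (g k) (Φ k) X i| ≤ 1
  pos' : ∀ i, 1 ≤ i → i ≤ n → dp i → |nat (g s) (Φ s) X' i| ≤ 1
  coarse : ∀ i, 1 ≤ i → i ≤ n → ¬ dp i → ∀ k ≤ s, ∀ k' ≤ k,
    (2 : ℝ) ^ g k i * φ k' ≤ E * φ k * 2 ^ g k' i
  deep : ∀ i, 1 ≤ i → i ≤ n → dp i → ∀ k' ≤ s, ∀ k ≤ k',
    (2 : ℝ) ^ g k i * φ k' ≤ E * φ k * 2 ^ g k' i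
  start : ∀ i, 1 ≤ i → i ≤ n → ¬ dp i → |nat (g 0) (Φ 0) X i - nat (g 0) (Φ 0) X' i| ≤ φ 0
  last : 1 ≤ φ s
  adj : ∀ k < s, ∀ l, 1 ≤ l → l ≤ n → ∀ b : ℕ → ℝ, (∀ i < l, |nat (g k) (Φ k) b i| ≤ 1) →
    |eval b (Φ k l) - eval b (Φ (k + 1) l)| ≤ E / 2 ^ min (g k l) (g (k + 1) l)

theorem sum_le_of {ι : Type} (S : Finset ι) (f : ι → ℝ) {c N : ℝ} (hc : 0 ≤ c)
    (hN : (#S : ℝ) ≤ N) (h : ∀ i ∈ S, f i ≤ c) : ∑ i ∈ S, f i ≤ N * c := by
  refine (Finset.sum_le_sum h).trans ?_
  rw [sum_const, nsmul_eq_mul]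
  exact mul_le_mul_of_nonneg_right hN hc

theorem prf_aux (n K : ℕ) : ∀ m ≤ n + 1, ∃ (C : ℝ) (D : ℕ), 1 ≤ C ∧ ∀ (s : ℕ) (g : ℕ → ℕ → ℕ)
    (Φ : ℕ → ℕ → PN) (t : ℝ) (X X' : ℕ → ℝ) (φ : ℕ → ℝ) (dp : ℕ → Prop) (N E : ℝ),
    Pf n K s g Φ t X X' φ dp N E → ∀ k ≤ s, ∀ i < m,
      |nat (g k) (Φ k) X i - nat (g k) (Φ k) X' i| ≤ C * (N * E) ^ D * φ k := by
  obtain ⟨C₀, D₀, hC₀, h₀⟩ := Pool.MIC7.vr n K
  intro m
  induction m with
  | zero => exact fun _ => ⟨1, 0, le_rfl, fun _ _ _ _ _ _ _ _ _ _ _ _ _ i hi =>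
      absurd hi (Nat.not_lt_zero _)⟩
  | succ m ih =>
    intro hm
    obtain ⟨C, D, hC, h⟩ := ih (by omega)
    set C₁ : ℝ := C₀ * (1 + C) ^ D₀ with hC₁
    have hC₁1 : 1 ≤ C₁ := by
      have := one_le_pow₀ (n := D₀) (show 1 ≤ 1 + C by linarith)
      nlinarith
    set D₁ := D * D₀ + D with hD₁
    refine ⟨2 + 2 * C₁ * C + C, D₁ + 4, by nlinarith, ?_⟩
    intro s g Φ t X X' φ dp N E H k hk i hi
    have hN := H.N1
    have hE := H.E1
    have hN0 : 0 < N := by linarith
    have hE0 : 0 < E := by linarith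
    have hC0 : 0 < C := by linarith
    have hNE : 1 ≤ N * E := one_le_mul_of_one_le_of_one_le hN hE
    have hNE0 : 0 < N * E := by linarith
    have hp : (N * E) ^ D ≤ (N * E) ^ (D₁ + 4) := pow_le_pow_right₀ hNE (by omega)
    have hφ := H.fp k hk
    have hcc : 0 ≤ C₁ * C := by nlinarith
    rcases Nat.lt_or_ge i m with hi' | hi'
    · refine (h s g Φ t X X' φ dp N E H k hk i hi').trans ?_
      refine mul_le_mul_of_nonneg_right ?_ hφ.le
      refine mul_le_mul (by nlinarith) hp (by positivity) (by nlinarith)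
    obtain rfl : i = m := by omega
    rcases Nat.eq_zero_or_pos i with rfl | hi0
    · unfold nat
      rw [H.zero k hk, eval_C, eval_C, H.X0, H.X0', sub_self, abs_zero]
      have : 0 ≤ 2 + 2 * C₁ * C + C := by nlinarith
      positivity
    -- the variation of the labels
    set A : ℝ := C₁ * E * (C * (N * E) ^ D₁) with hA
    have hA0 : 0 ≤ A := by rw [hA]; positivity
    have hvar : ∀ k' < s, |(eval X (Φ k' i) - eval X (Φ (k' + 1) i)) -
        (eval X' (Φ k' i) - eval X' (Φ (k' + 1) i))| ≤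
        A * φ k' * (1 / 2 ^ g k' i + 1 / 2 ^ g (k' + 1) i) := by
      intro k' hk'
      have hφ' := H.fp k' hk'.le
      have hz : nat (g k') (Φ k') X 0 = 0 := by
        unfold nat
        rw [H.zero k' hk'.le, eval_C, H.X0, sub_self, mul_zero]
      have hpx : ∀ j < i, |nat (g k') (Φ k') X j| ≤ 1 := by
        intro j hj
        rcases Nat.eq_zero_or_pos j with rfl | hj0
        · rw [hz, abs_zero]
          exact zero_le_one
        · exact H.pos k' hk'.le j hj0 (by omega)
      have hB1 : 1 ≤ 1 + C * (N * E) ^ D := by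
        have : 0 ≤ C * (N * E) ^ D := by positivity
        linarith
      have hih := h s g Φ t X X' φ dp N E H k' hk'.le
      have main := h₀ i (g k') (Φ k') (Φ k' i - Φ (k' + 1) i)
        (E / 2 ^ min (g k' i) (g (k' + 1) i)) (1 + C * (N * E) ^ D) (C * (N * E) ^ D * φ k') X X'
        (by omega) (H.tri k' hk'.le) (fun j hj => H.deg k' hk'.le j (by omega)) hB1 (by positivity)
        (by positivity) (AdxRow.vars_sub_le (H.tri k' hk'.le i) (H.tri (k' + 1) hk' i))
        ((totalDegree_sub _ _).trans (max_le (H.deg k' hk'.le i (by omega))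
          (H.deg (k' + 1) hk' i (by omega))))
        (fun b hb => by
          rw [map_sub]
          exact H.adj k' hk' i hi0 (by omega) b hb)
        (fun j hj => (hpx j hj).trans hB1)
        (fun j hj => by
          have e1 := hih j hj
          have e2 := hpx j hj
          have e3 : nat (g k') (Φ k') X' j = nat (g k') (Φ k') X j -
              (nat (g k') (Φ k') X j - nat (g k') (Φ k') X' j) := by ring
          rw [e3]
          refine (abs_sub _ _).trans (add_le_add e2 (e1.trans ?_))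
          have e4 : C * (N * E) ^ D * φ k' ≤ C * (N * E) ^ D * 1 :=
            mul_le_mul_of_nonneg_left (H.f1 k' hk'.le) (by positivity)
          linarith)
        hih
      rw [map_sub, map_sub] at main
      refine main.trans ?_
      have b1 : (1 + C * (N * E) ^ D) ^ D₀ ≤ (1 + C) ^ D₀ * (N * E) ^ (D * D₀) := by
        rw [pow_mul, ← mul_pow]
        refine pow_le_pow_left₀ (by positivity) ?_ _
        have := one_le_pow₀ (n := D) hNE
        nlinarith
      have e1 : (1 : ℝ) / 2 ^ min (g k' i) (g (k' + 1) i) ≤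
          1 / 2 ^ g k' i + 1 / 2 ^ g (k' + 1) i := by
        rcases min_choice (g k' i) (g (k' + 1) i) with e | e <;> rw [e]
        · have : (0 : ℝ) ≤ 1 / 2 ^ g (k' + 1) i := by positivity
          linarith
        · have : (0 : ℝ) ≤ 1 / 2 ^ g k' i := by positivity
          linarith
      calc C₀ * (1 + C * (N * E) ^ D) ^ D₀ * (E / 2 ^ min (g k' i) (g (k' + 1) i)) *
            (C * (N * E) ^ D * φ k')
          ≤ C₀ * ((1 + C) ^ D₀ * (N * E) ^ (D * D₀)) * (E / 2 ^ min (g k' i) (g (k' + 1) i)) *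
            (C * (N * E) ^ D * φ k') := by
            refine mul_le_mul_of_nonneg_right ?_ (by positivity)
            refine mul_le_mul_of_nonneg_right ?_ (by positivity)
            exact mul_le_mul_of_nonneg_left b1 (by linarith)
        _ = A * φ k' * (1 / 2 ^ min (g k' i) (g (k' + 1) i)) := by
            rw [hA, hC₁, hD₁, pow_add]
            ring
        _ ≤ _ := mul_le_mul_of_nonneg_left e1 (by positivity)
    -- the differences
    obtain ⟨a, ha⟩ : ∃ a : ℕ → ℝ, ∀ k, a k = (X i - eval X (Φ k i)) - (X' i - eval X' (Φ k i)) :=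
      ⟨_, fun _ => rfl⟩
    have hna : ∀ k, nat (g k) (Φ k) X i - nat (g k) (Φ k) X' i = 2 ^ g k i * a k := by
      intro k
      rw [ha]
      unfold nat
      ring
    have hst : ∀ k' < s, |a (k' + 1) - a k'| ≤
        A * φ k' * (1 / 2 ^ g k' i + 1 / 2 ^ g (k' + 1) i) := by
      intro k' hk'
      refine le_trans (le_of_eq ?_) (hvar k' hk')
      rw [ha, ha]
      congr 1
      ring
    have hNs : (s : ℝ) ≤ N := H.sN
    -- the sum
    have hsum : ∀ S : Finset ℕ, S ⊆ range s →
        (∀ k' ∈ S, (2 : ℝ) ^ g k i * φ k' ≤ E * φ k * 2 ^ g k' i ∧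
          (2 : ℝ) ^ g k i * φ (k' + 1) ≤ E * φ k * 2 ^ g (k' + 1) i) →
        2 ^ g k i * ∑ k' ∈ S, |a (k' + 1) - a k'| ≤ N * (A * (2 * E ^ 2 * φ k)) := by
      intro S hS hl
      rw [Finset.mul_sum]
      refine sum_le_of S _ (by positivity) ?_ fun k' hk' => ?_
      · refine le_trans ?_ hNs
        have := Finset.card_le_card hS
        rw [card_range] at this
        exact_mod_cast this
      obtain ⟨l1, l2⟩ := hl k' hk'
      have hk2 := mem_range.1 (hS hk')
      have hφ' := H.fp k' hk2.le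
      refine (mul_le_mul_of_nonneg_left (hst k' hk2) (by positivity)).trans ?_
      have e1 : (2 : ℝ) ^ g k i * φ k' / 2 ^ g k' i ≤ E * φ k := by
        rw [div_le_iff₀ (by positivity)]
        exact l1
      have e2 : (2 : ℝ) ^ g k i * φ k' / 2 ^ g (k' + 1) i ≤ E * (E * φ k) := by
        have e3 : (2 : ℝ) ^ g k i * φ (k' + 1) / 2 ^ g (k' + 1) i ≤ E * φ k := by
          rw [div_le_iff₀ (by positivity)]
          exact l2
        refine le_trans ?_ (mul_le_mul_of_nonneg_left e3 hE0.le)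
        rw [← mul_div_assoc]
        refine div_le_div_of_nonneg_right ?_ (by positivity)
        calc (2 : ℝ) ^ g k i * φ k' ≤ 2 ^ g k i * (E * φ (k' + 1)) :=
              mul_le_mul_of_nonneg_left (H.stp k' hk2) (by positivity)
          _ = _ := by ring
      have e4 : E * φ k ≤ E ^ 2 * φ k := by
        refine mul_le_mul_of_nonneg_right ?_ hφ.le
        nlinarith
      calc (2 : ℝ) ^ g k i * (A * φ k' * (1 / 2 ^ g k' i + 1 / 2 ^ g (k' + 1) i))
          = A * ((2 : ℝ) ^ g k i * φ k' / 2 ^ g k' i +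
              (2 : ℝ) ^ g k i * φ k' / 2 ^ g (k' + 1) i) := by ring
        _ ≤ A * (E ^ 2 * φ k + E * (E * φ k)) :=
            mul_le_mul_of_nonneg_left (add_le_add (e1.trans e4) e2) hA0
        _ = _ := by ring
    -- the end
    have hend : 2 * E * φ k + N * (A * (2 * E ^ 2 * φ k)) ≤
        (2 + 2 * C₁ * C + C) * (N * E) ^ (D₁ + 4) * φ k := by
      have e1 : E ≤ (N * E) ^ (D₁ + 4) := by
        have a1 : E ≤ N * E := by nlinarith
        have a2 := pow_le_pow_right₀ hNE (show 1 ≤ D₁ + 4 by omega)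
        rw [pow_one] at a2
        linarith
      have e2 : N * E ^ 3 ≤ (N * E) ^ 4 := by
        have a1 : (N * E) ^ 4 = N * E ^ 3 * (N ^ 3 * E) := by ring
        rw [a1]
        have a2 : 1 ≤ N ^ 3 * E := one_le_mul_of_one_le_of_one_le (one_le_pow₀ hN) hE
        have a3 : 0 ≤ N * E ^ 3 := by positivity
        nlinarith
      have e3 : N * (A * (2 * E ^ 2 * φ k)) ≤ 2 * C₁ * C * (N * E) ^ (D₁ + 4) * φ k := by
        calc N * (A * (2 * E ^ 2 * φ k)) = 2 * C₁ * C * ((N * E) ^ D₁ * (N * E ^ 3)) * φ k := by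
              rw [hA]
              ring
          _ ≤ 2 * C₁ * C * ((N * E) ^ D₁ * (N * E) ^ 4) * φ k := by
              refine mul_le_mul_of_nonneg_right ?_ hφ.le
              refine mul_le_mul_of_nonneg_left ?_ (by nlinarith)
              exact mul_le_mul_of_nonneg_left e2 (by positivity)
          _ = _ := by rw [← pow_add]
      have e4 : 2 * E * φ k ≤ 2 * (N * E) ^ (D₁ + 4) * φ k :=
        mul_le_mul_of_nonneg_right (by linarith) hφ.le
      have e5 : 0 ≤ C * (N * E) ^ (D₁ + 4) * φ k := by positivity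
      have e6 : (2 + 2 * C₁ * C + C) * (N * E) ^ (D₁ + 4) * φ k =
          2 * (N * E) ^ (D₁ + 4) * φ k + 2 * C₁ * C * (N * E) ^ (D₁ + 4) * φ k +
            C * (N * E) ^ (D₁ + 4) * φ k := by ring
      rw [e6]
      linarith
    have hp2 : (0 : ℝ) < 2 ^ g k i := by positivity
    rw [hna, abs_mul, abs_of_pos hp2]
    refine le_trans ?_ hend
    by_cases hd : dp i
    · -- from the last frame
      have t1 : |a k| ≤ |a s| + ∑ k' ∈ Ico k s, |a (k' + 1) - a k'| := by
        have e1 : a k = a s - ∑ k' ∈ Ico k s, (a (k' + 1) - a k') := by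
          rw [Finset.sum_Ico_sub a hk]
          ring
        rw [e1]
        exact (abs_sub _ _).trans (add_le_add le_rfl (abs_sum_le_sum_abs _ _))
      have t2 : 2 ^ g k i * |a s| ≤ 2 * E * φ k := by
        have s1 := H.pos s le_rfl i hi0 (by omega)
        have s2 := H.pos' i hi0 (by omega) hd
        have s3 : 2 ^ g s i * |a s| ≤ 2 := by
          have e1 := hna s
          have e2 : |nat (g s) (Φ s) X i - nat (g s) (Φ s) X' i| ≤ 2 :=
            (abs_sub _ _).trans (by linarith)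
          rw [e1, abs_mul, abs_of_pos (by positivity)] at e2
          exact e2
        have s4 := H.deep i hi0 (by omega) hd s le_rfl k hk
        have s5 : (2 : ℝ) ^ g k i ≤ E * φ k * 2 ^ g s i := by
          refine le_trans ?_ s4
          have := H.last
          nlinarith
        calc (2 : ℝ) ^ g k i * |a s| ≤ E * φ k * 2 ^ g s i * |a s| :=
              mul_le_mul_of_nonneg_right s5 (abs_nonneg _)
          _ = E * φ k * (2 ^ g s i * |a s|) := by ring
          _ ≤ E * φ k * 2 := mul_le_mul_of_nonneg_left s3 (by positivity)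
          _ = _ := by ring
      have t3 := hsum (Ico k s) (fun x hx => mem_range.2 (mem_Ico.1 hx).2) fun k' hk' => by
        have := mem_Ico.1 hk'
        exact ⟨H.deep i hi0 (by omega) hd k' this.2.le k this.1,
          H.deep i hi0 (by omega) hd (k' + 1) this.2 k (by omega)⟩
      calc 2 ^ g k i * |a k| ≤ 2 ^ g k i * (|a s| + ∑ k' ∈ Ico k s, |a (k' + 1) - a k'|) :=
            mul_le_mul_of_nonneg_left t1 hp2.le
        _ = 2 ^ g k i * |a s| + 2 ^ g k i * ∑ k' ∈ Ico k s, |a (k' + 1) - a k'| := by ring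
        _ ≤ _ := add_le_add t2 t3
    · -- from the first frame
      have t1 : |a k| ≤ |a 0| + ∑ k' ∈ range k, |a (k' + 1) - a k'| := by
        have e1 : a k = a 0 + ∑ k' ∈ range k, (a (k' + 1) - a k') := by
          rw [Finset.sum_range_sub]
          ring
        rw [e1]
        exact (abs_add_le _ _).trans (add_le_add le_rfl (abs_sum_le_sum_abs _ _))
      have t2 : 2 ^ g k i * |a 0| ≤ 2 * E * φ k := by
        have s1 := H.start i hi0 (by omega) hd
        rw [hna, abs_mul, abs_of_pos (by positivity)] at s1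
        have s4 := H.coarse i hi0 (by omega) hd k hk 0 (Nat.zero_le _)
        have s5 : (2 : ℝ) ^ g k i * |a 0| * 2 ^ g 0 i ≤ E * φ k * 2 ^ g 0 i := by
          refine le_trans ?_ s4
          calc (2 : ℝ) ^ g k i * |a 0| * 2 ^ g 0 i = 2 ^ g k i * (2 ^ g 0 i * |a 0|) := by ring
            _ ≤ _ := mul_le_mul_of_nonneg_left s1 (by positivity)
        have s6 := le_of_mul_le_mul_right s5 (by positivity)
        have : 0 ≤ E * φ k := by positivity
        linarith
      have t3 := hsum (range k) (fun x hx => mem_range.2 (by have := mem_range.1 hx; omega))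
        fun k' hk' => by
        have := mem_range.1 hk'
        exact ⟨H.coarse i hi0 (by omega) hd k hk k' this.le,
          H.coarse i hi0 (by omega) hd k hk (k' + 1) this⟩
      calc 2 ^ g k i * |a k| ≤ 2 ^ g k i * (|a 0| + ∑ k' ∈ range k, |a (k' + 1) - a k'|) :=
            mul_le_mul_of_nonneg_left t1 hp2.le
        _ = 2 ^ g k i * |a 0| + 2 ^ g k i * ∑ k' ∈ range k, |a (k' + 1) - a k'| := by ring
        _ ≤ _ := add_le_add t2 t3

/-- **Two points in the boxes of the ends.** -/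
theorem prf (n K : ℕ) : ∃ (C : ℝ) (D : ℕ), 1 ≤ C ∧ ∀ (s : ℕ) (g : ℕ → ℕ → ℕ)
    (Φ : ℕ → ℕ → PN) (t : ℝ) (X X' : ℕ → ℝ) (φ : ℕ → ℝ) (dp : ℕ → Prop) (N E : ℝ),
    Pf n K s g Φ t X X' φ dp N E → ∀ k ≤ s, ∀ i ≤ n,
      |nat (g k) (Φ k) X i - nat (g k) (Φ k) X' i| ≤ C * (N * E) ^ D * φ k := by
  obtain ⟨C, D, hC, h⟩ := prf_aux n K (n + 1) le_rfl
  exact ⟨C, D, hC, fun s g Φ t X X' φ dp N E H k hk i hi =>
    h s g Φ t X X' φ dp N E H k hk i (by omega)⟩

end Pool.UP35
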