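import Pool.Agent.H35.UP.Prf
import Pool.Agent.H35.UP.Few
import Pool.Agent.H19.STAT.Sys2

/-!
# Upper bounds for the base given two contexts

`b` is a place of the grid, `b + r d` another one, no coordinate `l ≤ m` has the ratio of the
direction `d`. Given the labels at `b` and at `b + r d` and the exact time, the digits at `b`
(up to `c₀ r z` digits) of the coordinates which get deeper at `b + r d` have few values given the
digits of the coordinates which get coarser.

Input: neighbouring labels on the path from `b` to `b + r d` agree on the natural boxes (`Agr`).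
-/

set_option autoImplicit false

namespace Pool.UP35

open Finset Real MvPolynomial
open Pool.Agent.H49.Ent Pool.Agent.H32.Dense Pool.STK Pool.STAT
open Pool.BFL (Pb)
open Pool.MIC.Frm (nat)
open Pool.MIC7 (fz)

/-- Two labels agree on the natural box of the first one, at the exact time. -/
def Agr (D : NDat2) (n i j i' j' : ℕ) (E : ℝ) (ω : D.Ω) : Prop :=
  ∀ l, 1 ≤ l → l ≤ n → ∀ b : ℕ → ℝ, b 0 = D.X ω 0 →
    (∀ k, 1 ≤ k → k < l → |b k - eval b (D.Ψ i j ω k)| ≤ 1 / 2 ^ D.g i j k) →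
    |eval b (D.Ψ i j ω l) - eval b (D.Ψ i' j' ω l)| ≤ E / 2 ^ min (D.g i j l) (D.g i' j' l)

/-- `Agr` for places of `ℤ × ℤ`. -/
def AgrZ (D : NDat2) (n : ℕ) (p p' : ℤ × ℤ) (E : ℝ) (ω : D.Ω) : Prop :=
  Agr D n p.1.toNat p.2.toNat p'.1.toNat p'.2.toNat E ω

/-- The place is in the grid. -/
def InG (M : ℕ) (p : ℤ × ℤ) : Prop := 0 ≤ p.1 ∧ p.1 ≤ M ∧ 0 ≤ p.2 ∧ p.2 ≤ M

/-- The labels on the places of `ℤ × ℤ`. -/
def Sc (D : NDat2) (p : ℤ × ℤ) : D.Ω → D.S := D.s p.1.toNat p.2.toNat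

/-- The growth of the level of the coordinate `l` in the direction `d`. -/
def mu (lam gam : ℕ → ℝ) (d : ℤ × ℤ) (l : ℕ) : ℝ := lam l * d.1 + gam l * d.2

/-- The digits at the place `b` of the coordinates `1, …, m`. -/
noncomputable def dgb (D : NDat2) (m X : ℕ) (b : ℤ × ℤ) (ω : D.Ω) (l : Fin m) : ℤ :=
  ⌊(2 : ℝ) ^ (D.g b.1.toNat b.2.toNat (l + 1) + X) * D.sh b.1.toNat b.2.toNat ω (l + 1)⌋

/-- The profile. -/
noncomputable def hh (c X r : ℝ) (k : ℕ) : ℝ := min (c * k + X) (c * (r - k))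

theorem hh_lip {c : ℝ} (hc : 0 ≤ c) (X r : ℝ) {k k' : ℕ} (h : k ≤ k') :
    hh c X r k ≤ hh c X r k' + c * (k' - k) ∧ hh c X r k' ≤ hh c X r k + c * (k' - k) := by
  have h1 : (k : ℝ) ≤ k' := by exact_mod_cast h
  have h2 : 0 ≤ c * ((k' : ℝ) - k) := mul_nonneg hc (by linarith)
  unfold hh
  rw [← min_add_add_right, ← min_add_add_right]
  constructor
  · refine min_le_min ?_ ?_ <;> nlinarith
  · refine min_le_min ?_ ?_ <;> nlinarith

theorem two_pow_exp (k : ℕ) : (2 : ℝ) ^ k = Real.exp (k * Real.log 2) := by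
  rw [mul_comm, Real.exp_mul, Real.exp_log (by norm_num), Real.rpow_natCast]

section

variable {n K J a₀ w₀ z M : ℕ} {lam gam : ℕ → ℝ} {κ C₁ : ℝ} {D : NDat2} {q : D.Ω → ℝ}

/-- The levels along a path. -/
theorem lev_le (hO : D.Ok2 n K J a₀ w₀ z M lam gam κ C₁ q) {b d : ℤ × ℤ} {k k' l : ℕ}
    (hk : InG M (b + k • d)) (hk' : InG M (b + k' • d)) (h1 : 1 ≤ l) (hn : l ≤ n) :
    (D.g (b + k • d).1.toNat (b + k • d).2.toNat l : ℝ) ≤
      D.g (b + k' • d).1.toNat (b + k' • d).2.toNat l + mu lam gam d l * (k - k') * z +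
        2 * C₁ * z := by
  obtain ⟨a1, a2, a3, a4⟩ := hk
  obtain ⟨b1, b2, b3, b4⟩ := hk'
  have e1 := abs_le.1 (hO.hom (b + k • d).1.toNat (by omega) (b + k • d).2.toNat (by omega) l h1 hn)
  have e2 := abs_le.1 (hO.hom (b + k' • d).1.toNat (by omega) (b + k' • d).2.toNat (by omega) l
    h1 hn)
  have c1 : (((b + k • d).1.toNat : ℕ) : ℝ) = b.1 + k * d.1 := by
    have : (((b + k • d).1.toNat : ℕ) : ℤ) = b.1 + k * d.1 := by
      rw [Int.toNat_of_nonneg a1, Prod.fst_add, Prod.smul_fst, nsmul_eq_mul]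
    exact_mod_cast this
  have c2 : (((b + k • d).2.toNat : ℕ) : ℝ) = b.2 + k * d.2 := by
    have : (((b + k • d).2.toNat : ℕ) : ℤ) = b.2 + k * d.2 := by
      rw [Int.toNat_of_nonneg a3, Prod.snd_add, Prod.smul_snd, nsmul_eq_mul]
    exact_mod_cast this
  have c3 : (((b + k' • d).1.toNat : ℕ) : ℝ) = b.1 + k' * d.1 := by
    have : (((b + k' • d).1.toNat : ℕ) : ℤ) = b.1 + k' * d.1 := by
      rw [Int.toNat_of_nonneg b1, Prod.fst_add, Prod.smul_fst, nsmul_eq_mul]
    exact_mod_cast this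
  have c4 : (((b + k' • d).2.toNat : ℕ) : ℝ) = b.2 + k' * d.2 := by
    have : (((b + k' • d).2.toNat : ℕ) : ℤ) = b.2 + k' * d.2 := by
      rw [Int.toNat_of_nonneg b3, Prod.snd_add, Prod.smul_snd, nsmul_eq_mul]
    exact_mod_cast this
  rw [c1, c2] at e1
  rw [c3, c4] at e2
  have e3 : mu lam gam d l * ((k : ℝ) - k') * z =
      (lam l * (b.1 + k * d.1) + gam l * (b.2 + k * d.2)) * z -
      (lam l * (b.1 + k' * d.1) + gam l * (b.2 + k' * d.2)) * z := by
    unfold mu
    ring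
  rw [e3]
  linarith [e1.2, e2.1]

end

/-- **Two samples with the same labels at the ends.** -/
theorem near (n K : ℕ) : ∃ (C : ℝ) (Dg : ℕ), 1 ≤ C ∧ ∀ (J a₀ w₀ z M : ℕ) (lam gam : ℕ → ℝ)
    (κ C₁ : ℝ) (D : NDat2) (q : D.Ω → ℝ) (b d : ℤ × ℤ) (r m X : ℕ) (c₀ C₃ N : ℝ),
    D.Ok2 n K J a₀ w₀ z M lam gam κ C₁ q → m ≤ n → 0 < c₀ → (r : ℝ) ≤ N → 1 ≤ N →
    (∀ k ≤ r, InG M (b + k • d)) → (∀ l, 1 ≤ l → l ≤ m → c₀ ≤ |mu lam gam d l|) →
    (X : ℝ) ≤ c₀ * r * z → 2 * C₁ * Real.log 2 ≤ C₃ → c₀ * Real.log 2 ≤ C₃ →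
    ∀ ω ω', 0 < q ω → 0 < q ω' →
    (∀ k < r, AgrZ D n (b + k • d) (b + (k + 1) • d) (Real.exp (C₃ * z)) ω) →
    Sc D b ω = Sc D b ω' → Sc D (b + r • d) ω = Sc D (b + r • d) ω' → D.T ω = D.T ω' →
    (∀ l, 1 ≤ l → l ≤ m → mu lam gam d l < 0 → 2 ^ D.g b.1.toNat b.2.toNat l *
      |D.sh b.1.toNat b.2.toNat ω l - D.sh b.1.toNat b.2.toNat ω' l| ≤ 1 / 2 ^ X) →
    ∀ l, 1 ≤ l → l ≤ m → 2 ^ D.g b.1.toNat b.2.toNat l *
      |D.sh b.1.toNat b.2.toNat ω l - D.sh b.1.toNat b.2.toNat ω' l| ≤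
        C * (N * Real.exp (C₃ * z)) ^ Dg * (1 / 2 ^ X) := by
  choose C Dg hC h using fun m => prf m K
  set C' : ℝ := ∑ m ∈ range (n + 1), C m with hC'
  set Dg' : ℕ := ∑ m ∈ range (n + 1), Dg m with hDg'
  have hCm : ∀ m ≤ n, C m ≤ C' := fun m hm =>
    Finset.single_le_sum (f := C) (fun i _ => by linarith [hC i]) (mem_range.2 (by omega))
  have hDm : ∀ m ≤ n, Dg m ≤ Dg' := fun m hm =>
    Finset.single_le_sum (f := Dg) (fun i _ => Nat.zero_le _) (mem_range.2 (by omega))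
  refine ⟨C', Dg', (hC 0).trans (hCm 0 (Nat.zero_le _)), ?_⟩
  intro J a₀ w₀ z M lam gam κ C₁ D q b d r m X c₀ C₃ N hO hm hc₀ hrN hN hin hmu hX hC31 hC32
    ω ω' hω hω' hag hb hbr hT hco l hl hlm
  have hl2 : 0 < Real.log 2 := Real.log_pos (by norm_num)
  have hz0 : (0 : ℝ) ≤ z := Nat.cast_nonneg z
  set E : ℝ := Real.exp (C₃ * z) with hE
  have hC3 : 0 ≤ C₃ := by
    have : 0 ≤ c₀ * Real.log 2 := by positivity
    linarith
  have hE1 : 1 ≤ E := by
    rw [hE]
    exact Real.one_le_exp (by positivity)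
  -- the frames
  obtain ⟨P, hP⟩ : ∃ P : ℕ → ℤ × ℤ, ∀ k, P k = b + k • d := ⟨_, fun _ => rfl⟩
  have hP0 : P 0 = b := by rw [hP, zero_smul, add_zero]
  have hxT : D.X ω' 0 = D.X ω 0 := by rw [hO.X_zero, hO.X_zero, hT]
  have hnat : ∀ k ≤ r, ∀ x, 0 < q x → D.X x 0 = D.X ω 0 → ∀ i, 1 ≤ i →
      nat (D.g (P k).1.toNat (P k).2.toNat) (fz (D.X ω 0) (D.Ψ (P k).1.toNat (P k).2.toNat ω))
        (D.X x) i = 2 ^ D.g (P k).1.toNat (P k).2.toNat i *
        (D.X x i - eval (D.X x) (D.Ψ (P k).1.toNat (P k).2.toNat ω i)) := by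
    intro k _ x _ hx i hi
    rw [Pool.MIC7.nat_fz' _ _ hx hi]
    rfl
  have hin' : ∀ k ≤ r, InG M (P k) := fun k hk => by
    rw [hP]
    exact hin k hk
  -- equal labels at the ends
  have hlab : ∀ p : ℤ × ℤ, InG M p → Sc D p ω = Sc D p ω' →
      D.Ψ p.1.toNat p.2.toNat ω = D.Ψ p.1.toNat p.2.toNat ω' := by
    intro p _ he
    have e1 : D.s p.1.toNat p.2.toNat ω = D.s p.1.toNat p.2.toNat ω' := he
    unfold NDat2.Ψ
    rw [e1]
  have hl0 := hlab (P 0) (hin' 0 (Nat.zero_le _)) (by rw [hP0]; exact hb)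
  have hlr := hlab (P r) (hin' r le_rfl) (by rw [hP]; exact hbr)
  -- the positions
  have hpos : ∀ k ≤ r, ∀ x, 0 < q x → ∀ i, 1 ≤ i → i ≤ n →
      |2 ^ D.g (P k).1.toNat (P k).2.toNat i *
        (D.X x i - eval (D.X x) (D.Ψ (P k).1.toNat (P k).2.toNat x i))| ≤ 1 := by
    intro k hk x hx i hi hin
    obtain ⟨a1, a2, a3, a4⟩ := hin' k hk
    have e1 := hO.pos (P k).1.toNat (by omega) (P k).2.toNat (by omega) x hx i hi hin
    unfold NDat2.sh at e1
    rw [abs_mul, abs_of_pos (by positivity)]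
    rw [le_div_iff₀ (by positivity)] at e1
    linarith
  -- the profile
  have hrX : hh (c₀ * z) X r r = 0 := by
    unfold hh
    rw [sub_self, mul_zero, min_eq_right]
    positivity
  have h0X : hh (c₀ * z) X r 0 = X := by
    unfold hh
    push_cast
    rw [mul_zero, zero_add, sub_zero, min_eq_left]
    linarith
  have hcz : 0 ≤ c₀ * z := by positivity
  have hhpos : ∀ k ≤ r, 0 ≤ hh (c₀ * z) X r k := by
    intro k hk
    have : (k : ℝ) ≤ r := by exact_mod_cast hk
    unfold hh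
    refine le_min (by positivity) (mul_nonneg hcz (by linarith))
  have key : ∀ i, 1 ≤ i → i ≤ m → ∀ k ≤ r, ∀ k' ≤ r,
      mu lam gam d i * ((k : ℝ) - k') * z + (hh (c₀ * z) X r k - hh (c₀ * z) X r k') ≤ 0 →
      (2 : ℝ) ^ D.g (P k).1.toNat (P k).2.toNat i * Real.exp (-(hh (c₀ * z) X r k' * Real.log 2)) ≤
        E * Real.exp (-(hh (c₀ * z) X r k * Real.log 2)) *
          2 ^ D.g (P k').1.toNat (P k').2.toNat i := by
    intro i hi him k hk k' hk' hle
    have e1 := lev_le hO (b := b) (d := d) (k := k) (k' := k') (hin k hk) (hin k' hk') hi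
      (by omega)
    rw [← hP, ← hP] at e1
    rw [two_pow_exp, two_pow_exp, hE, ← Real.exp_add, ← Real.exp_add, ← Real.exp_add]
    refine Real.exp_le_exp.2 ?_
    have e2 : (D.g (P k).1.toNat (P k).2.toNat i : ℝ) - hh (c₀ * z) X r k' ≤
        D.g (P k').1.toNat (P k').2.toNat i - hh (c₀ * z) X r k + 2 * C₁ * z := by linarith
    have e3 := mul_le_mul_of_nonneg_right e2 hl2.le
    have e4 := mul_le_mul_of_nonneg_right hC31 hz0
    nlinarith
  have H : Pf m K r (fun k => D.g (P k).1.toNat (P k).2.toNat)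
      (fun k => fz (D.X ω 0) (D.Ψ (P k).1.toNat (P k).2.toNat ω)) (D.X ω 0) (D.X ω) (D.X ω')
      (fun k => Real.exp (-(hh (c₀ * z) X r k * Real.log 2))) (fun i => 0 < mu lam gam d i)
      N E := by
    refine ⟨hrN, hN, hE1, ?_, ?_, ?_, rfl, hxT, ?_, ?_, ?_, ?_, ?_, ?_, ?_, ?_, ?_, ?_⟩
    · exact fun k _ => Pool.MIC7.tri_fz (hO.G_tri _ _ _) _
    · exact fun k _ i _ => Pool.MIC7.deg_fz (hO.G_deg _ _ _ _) _
    · exact fun k _ => Pool.MIC7.fz_zero _ _
    · exact fun k _ => Real.exp_pos _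
    · intro k hk
      refine Real.exp_le_one_iff.2 ?_
      have := mul_nonneg (hhpos k hk) hl2.le
      linarith
    · intro k hk
      rw [hE, ← Real.exp_add]
      refine Real.exp_le_exp.2 ?_
      have e1 := (hh_lip hcz X r (k := k) (k' := k + 1) (Nat.le_succ _)).2
      push_cast at e1
      have e2 : hh (c₀ * z) X r (k + 1) * Real.log 2 ≤
          (hh (c₀ * z) X r k + c₀ * z) * Real.log 2 :=
        mul_le_mul_of_nonneg_right (by linarith) hl2.le
      have e3 := mul_le_mul_of_nonneg_right hC32 hz0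
      nlinarith
    · intro k hk i hi him
      rw [hnat k hk ω hω rfl i hi]
      exact hpos k hk ω hω i hi (by omega)
    · intro i hi him _
      rw [hnat r le_rfl ω' hω' hxT i hi, hlr]
      exact hpos r le_rfl ω' hω' i hi (by omega)
    · intro i hi him hd k hk k' hk'
      refine key i hi him k hk k' (by omega) ?_
      have e1 := (hh_lip hcz X r (k := k') (k' := k) hk').2
      have e2 : mu lam gam d i ≤ -c₀ := by
        have := hmu i hi him
        rw [abs_of_nonpos (not_lt.1 hd)] at this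
        linarith
      have e3 : (0 : ℝ) ≤ ((k : ℝ) - k') * z := by
        have : (k' : ℝ) ≤ k := by exact_mod_cast hk'
        exact mul_nonneg (by linarith) hz0
      nlinarith
    · intro i hi him hd k' hk' k hk
      refine key i hi him k (by omega) k' hk' ?_
      have e1 := (hh_lip hcz X r (k := k) (k' := k') hk).1
      have e2 : c₀ ≤ mu lam gam d i := by
        have := hmu i hi him
        rwa [abs_of_pos hd] at this
      have e3 : (0 : ℝ) ≤ ((k' : ℝ) - k) * z := by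
        have : (k : ℝ) ≤ k' := by exact_mod_cast hk
        exact mul_nonneg (by linarith) hz0
      nlinarith
    · intro i hi him hd
      rw [hnat 0 (Nat.zero_le _) ω hω rfl i hi, hnat 0 (Nat.zero_le _) ω' hω' hxT i hi]
      have hneg : mu lam gam d i < 0 := by
        have e1 := hmu i hi him
        rcases lt_or_eq_of_le (not_lt.1 hd) with e | e
        · exact e
        · rw [e, abs_zero] at e1
          linarith
      have e2 := hco i hi him hneg
      rw [← hP0] at e2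
      unfold NDat2.sh at e2
      rw [← mul_sub, abs_mul, abs_of_pos (by positivity)]
      rw [← hl0] at e2
      refine e2.trans (le_of_eq ?_)
      rw [h0X, two_pow_exp, Real.exp_neg, one_div]
    · rw [hrX, zero_mul, neg_zero, Real.exp_zero]
    · intro k hk i hi him x hx
      have e0 := hag k hk
      rw [← hP, ← hP] at e0
      have e1 := e0 i hi (by omega) (Function.update x 0 (D.X ω 0)) (Function.update_self _ _ _)
        (fun k' hk' hki => by
          have e2 := hx k' hki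
          rw [Pool.MIC7.nat_fz _ _ _ _ hk'] at e2
          unfold Pool.MIC.Frm.nat at e2
          rw [abs_mul, abs_of_pos (by positivity)] at e2
          rw [le_div_iff₀ (by positivity)]
          linarith)
      change |eval x (fz _ _ i) - eval x (fz _ _ i)| ≤ _
      rw [Pool.MIC7.eval_fz _ _ _ hi, Pool.MIC7.eval_fz _ _ _ hi]
      exact e1
  have main := h m r _ _ _ _ _ _ _ N E H 0 (Nat.zero_le _) l hlm
  change |nat _ _ _ l - nat _ _ _ l| ≤ _ at main
  rw [hnat 0 (Nat.zero_le _) ω hω rfl l hl, hnat 0 (Nat.zero_le _) ω' hω' hxT l hl, ← mul_sub,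
    abs_mul, abs_of_pos (by positivity)] at main
  rw [← hP0]
  unfold NDat2.sh
  have e1 : (2 : ℝ) ^ D.g (P 0).1.toNat (P 0).2.toNat l *
      |D.X ω l - eval (D.X ω) (D.Ψ (P 0).1.toNat (P 0).2.toNat ω l) -
        (D.X ω' l - eval (D.X ω') (D.Ψ (P 0).1.toNat (P 0).2.toNat ω' l))| =
      2 ^ D.g (P 0).1.toNat (P 0).2.toNat l *
      |D.X ω l - eval (D.X ω) (D.Ψ (P 0).1.toNat (P 0).2.toNat ω l) -
        (D.X ω' l - eval (D.X ω') (D.Ψ (P 0).1.toNat (P 0).2.toNat ω l))| := by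
    rw [← hl0]
  rw [e1]
  refine main.trans ?_
  have hNE : 1 ≤ N * E := one_le_mul_of_one_le_of_one_le hN hE1
  have e2 : Real.exp (-(hh (c₀ * z) X r 0 * Real.log 2)) = 1 / 2 ^ X := by
    rw [h0X, two_pow_exp, Real.exp_neg, one_div]
  change C m * (N * E) ^ Dg m * Real.exp _ ≤ _
  rw [e2]
  refine mul_le_mul_of_nonneg_right ?_ (by positivity)
  refine mul_le_mul (hCm m hm) (pow_le_pow_right₀ hNE (hDm m hm)) (by positivity) ?_
  exact le_trans zero_le_one ((hC 0).trans (hCm 0 (Nat.zero_le _)))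

open Classical in
/-- The coordinates which get coarser in the direction `d`. -/
noncomputable def coa (m : ℕ) (lam gam : ℕ → ℝ) (d : ℤ × ℤ) : Finset (Fin m) :=
  univ.filter fun l => mu lam gam d (l + 1) < 0

/-- **Upper bound**: the digits at `b` given the labels at `b` and at `b + r d` and the exact
time. -/
theorem up (n K : ℕ) (C₁ C₂ c₀ : ℝ) (hc₀ : 0 < c₀) : ∃ C : ℝ, 1 ≤ C ∧ ∀ N : ℕ, ∃ z₀ : ℕ,
    ∀ (J a₀ w₀ z M : ℕ) (lam gam : ℕ → ℝ) (κ : ℝ) (D : NDat2) (q : D.Ω → ℝ) (b d : ℤ × ℤ)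
      (r m X : ℕ) (η : ℝ) (Y : Type) (y : D.Ω → Y), z₀ ≤ z → D.Ok2 n K J a₀ w₀ z M lam gam κ C₁ q → m ≤ n → r ≤ N →
      (∀ k ≤ r, InG M (b + k • d)) → (∀ l, 1 ≤ l → l ≤ m → c₀ ≤ |mu lam gam d l|) →
      (X : ℝ) ≤ c₀ * r * z →
      Pb q (fun ω => ¬ ∀ k < r, AgrZ D n (b + k • d) (b + (k + 1) • d) (Real.exp (C₂ * z)) ω) ≤ η →
      Det q y (Sc D (b + r • d)) → Det q y (Sc D b) → Det q y D.T →
      CH q (dgb D m X b) y ≤
        #(coa m lam gam d) * (X * Real.log 2) + C * z +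
          η * (m * (X * Real.log 2 + 2 * Real.log 2)) := by
  classical
  obtain ⟨C, Dg, hC, h⟩ := near n K
  have hl2 : 0 < Real.log 2 := Real.log_pos (by norm_num)
  obtain ⟨C₃, hC₃⟩ : ∃ C₃ : ℝ, C₃ = |C₂| + |2 * C₁ * Real.log 2| + c₀ * Real.log 2 := ⟨_, rfl⟩
  have hC₃0 : 0 ≤ C₃ := by
    rw [hC₃]
    have := abs_nonneg C₂
    have := abs_nonneg (2 * C₁ * Real.log 2)
    positivity
  refine ⟨n * (2 * Real.log 2 + 1 + Dg * (1 + C₃)) + 1, by
    have : 0 ≤ (n : ℝ) * (2 * Real.log 2 + 1 + Dg * (1 + C₃)) := by positivity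
    linarith, fun N => ?_⟩
  obtain ⟨z₁, hz₁⟩ := exists_nat_ge (Real.log (7 * C))
  obtain ⟨z₂, hz₂⟩ := exists_nat_ge (Real.log (N + 1))
  refine ⟨max (max z₁ z₂) 1, ?_⟩
  intro J a₀ w₀ z M lam gam κ D q b d r m X η Y y hz hO hm hrN hin hmu hX hη dr db dT
  have hz1 : (z₁ : ℝ) ≤ z := by
    exact_mod_cast ((le_max_left _ _).trans (le_max_left _ _)).trans hz
  have hz2 : (z₂ : ℝ) ≤ z := by
    exact_mod_cast ((le_max_right _ _).trans (le_max_left _ _)).trans hz
  have hz3 : (1 : ℝ) ≤ z := by exact_mod_cast (le_max_right _ _).trans hz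
  have hz0 : (0 : ℝ) ≤ z := Nat.cast_nonneg z
  set W : ℝ := C * ((N + 1) * Real.exp (C₃ * z)) ^ Dg with hW
  have hE1 : 1 ≤ Real.exp (C₃ * z) := Real.one_le_exp (by positivity)
  have hN1 : (1 : ℝ) ≤ N + 1 := by
    have : (0 : ℝ) ≤ N := Nat.cast_nonneg _
    linarith
  have hW1 : 1 ≤ W := by
    have := one_le_pow₀ (n := Dg) (one_le_mul_of_one_le_of_one_le hN1 hE1)
    nlinarith
  obtain ⟨B, hB⟩ : ∃ B : ℕ, B = ⌈W⌉₊ + 1 := ⟨_, rfl⟩
  have hBW : W + 1 ≤ B := by
    rw [hB]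
    push_cast
    have := Nat.le_ceil W
    linarith
  have hBW2 : (B : ℝ) ≤ W + 2 := by
    rw [hB]
    push_cast
    have := (Nat.ceil_lt_add_one (by linarith : (0 : ℝ) ≤ W)).le
    linarith
  have main := few_of_good hO.isLaw m X B (dgb D m X b) (coa m lam gam d) y
    (fun ω => ∀ k < r, AgrZ D n (b + k • d) (b + (k + 1) • d) (Real.exp (C₂ * z)) ω) ?_ ?_ hη
  · refine main.trans ?_
    have c1 : (#(coa m lam gam d) : ℝ) ≤ n := by
      have e1 := Finset.card_le_univ (coa m lam gam d)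
      rw [Fintype.card_fin] at e1
      exact_mod_cast e1.trans hm
    have c2 : Real.log (2 * B + 1) ≤ z + Dg * (1 + C₃) * z := by
      have e1 : (2 : ℝ) * B + 1 ≤ 7 * C * ((N + 1) * Real.exp (C₃ * z)) ^ Dg := by
        have : 7 * C * ((N + 1) * Real.exp (C₃ * z)) ^ Dg = 7 * W := by
          rw [hW]
          ring
        rw [this]
        linarith
      have e2 : Real.log (7 * C * ((N + 1) * Real.exp (C₃ * z)) ^ Dg) =
          Real.log (7 * C) + Dg * (Real.log (N + 1) + C₃ * z) := by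
        rw [Real.log_mul (by positivity) (by positivity), Real.log_pow,
          Real.log_mul (by positivity) (Real.exp_pos _).ne', Real.log_exp]
      have e3 := Real.log_le_log (by positivity) e1
      rw [e2] at e3
      have e4 : Real.log (N + 1) + C₃ * z ≤ (1 + C₃) * z := by
        linarith [hz₂.trans hz2]
      have e5 := mul_le_mul_of_nonneg_left e4 (Nat.cast_nonneg Dg)
      linarith [hz₁.trans hz1]
    have c3 : (m : ℝ) ≤ n := by exact_mod_cast hm
    have c4 : (#(coa m lam gam d) : ℝ) * (2 * Real.log 2) ≤ n * (2 * Real.log 2) * z := by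
      have e1 := mul_le_mul_of_nonneg_right c1 (show (0 : ℝ) ≤ 2 * Real.log 2 by positivity)
      have e2 : 0 ≤ (n : ℝ) * (2 * Real.log 2) := by positivity
      nlinarith
    have c5 : (m : ℝ) * Real.log (2 * B + 1) ≤ n * ((1 + Dg * (1 + C₃)) * z) := by
      have e1 : 0 ≤ Real.log (2 * (B : ℝ) + 1) := Real.log_nonneg (by
        have : (0 : ℝ) ≤ B := Nat.cast_nonneg _
        linarith)
      refine mul_le_mul c3 (c2.trans (le_of_eq (by ring))) e1 (Nat.cast_nonneg _)
    have e1 : (n * (2 * Real.log 2 + 1 + Dg * (1 + C₃)) + 1) * (z : ℝ) =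
        n * (2 * Real.log 2) * z + n * ((1 + Dg * (1 + C₃)) * z) + z := by ring
    rw [e1]
    linarith
  · -- the digits are bounded
    intro ω hω l
    have hln := l.2
    have h0 := hin 0 (Nat.zero_le _)
    rw [zero_smul, add_zero] at h0
    obtain ⟨a1, a2, a3, a4⟩ := h0
    have e1 := hO.pos b.1.toNat (by omega) b.2.toNat (by omega) ω hω (l + 1) (by omega) (by omega)
    rw [le_div_iff₀ (by positivity)] at e1
    have e2 : |(2 : ℝ) ^ (D.g b.1.toNat b.2.toNat (l + 1) + X) *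
        D.sh b.1.toNat b.2.toNat ω (l + 1)| ≤ 2 ^ X := by
      rw [abs_mul, abs_of_pos (by positivity), pow_add]
      have : (0 : ℝ) < 2 ^ X := by positivity
      nlinarith
    obtain ⟨e3, e4⟩ := abs_le.1 e2
    unfold dgb
    rw [abs_le]
    constructor
    · rw [Int.le_floor]
      push_cast
      exact e3
    · have e5 : ⌊(2 : ℝ) ^ (D.g b.1.toNat b.2.toNat (l + 1) + X) *
          D.sh b.1.toNat b.2.toNat ω (l + 1)⌋ ≤ ⌊(((2 : ℤ) ^ X : ℤ) : ℝ)⌋ := by
        refine Int.floor_le_floor ?_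
        push_cast
        exact e4
      rwa [Int.floor_intCast] at e5
  · -- near samples
    intro ω ω' hω hω' hgo hy hco l
    have hy1 : Sc D (b + r • d) ω = Sc D (b + r • d) ω' := dr ω ω' hω hω' hy
    have hy2 : Sc D b ω = Sc D b ω' := db ω ω' hω hω' hy
    have hy3 : D.T ω = D.T ω' := dT ω ω' hω hω' hy
    have hgo' : ∀ k < r, AgrZ D n (b + k • d) (b + (k + 1) • d) (Real.exp (C₃ * z)) ω := by
      intro k hk i hi hin x hx hx2
      refine (hgo k hk i hi hin x hx hx2).trans ?_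
      refine div_le_div_of_nonneg_right ?_ (by positivity)
      refine Real.exp_le_exp.2 (mul_le_mul_of_nonneg_right ?_ hz0)
      rw [hC₃]
      have := le_abs_self C₂
      have := abs_nonneg (2 * C₁ * Real.log 2)
      have : 0 ≤ c₀ * Real.log 2 := by positivity
      linarith
    have hN1' : (r : ℝ) ≤ N + 1 := by
      have : (r : ℝ) ≤ N := by exact_mod_cast hrN
      linarith
    have e1 := h J a₀ w₀ z M lam gam κ C₁ D q b d r m X c₀ C₃ (N + 1) hO hm hc₀ hN1' hN1 hin hmu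
      hX (by
        rw [hC₃]
        have := le_abs_self (2 * C₁ * Real.log 2)
        have := abs_nonneg C₂
        have : 0 ≤ c₀ * Real.log 2 := by positivity
        linarith) (by
        rw [hC₃]
        have := abs_nonneg (2 * C₁ * Real.log 2)
        have := abs_nonneg C₂
        linarith) ω ω' hω hω' hgo' hy2 hy1 hy3 (by
        intro i hi him hneg
        have e2 := hco ⟨i - 1, by omega⟩ (by
          unfold coa
          rw [mem_filter]
          refine ⟨mem_univ _, ?_⟩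
          have : i - 1 + 1 = i := by omega
          simp only
          rw [this]
          exact hneg)
        unfold dgb at e2
        simp only at e2
        have e3 : i - 1 + 1 = i := by omega
        rw [e3] at e2
        have e4 := Int.abs_sub_lt_one_of_floor_eq_floor e2
        rw [← mul_sub, abs_mul, abs_of_pos (by positivity), pow_add] at e4
        rw [le_div_iff₀ (by positivity)]
        linarith) (l + 1) (by omega) (by have := l.2; omega)
    have e2 : |(2 : ℝ) ^ (D.g b.1.toNat b.2.toNat (l + 1) + X) *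
        D.sh b.1.toNat b.2.toNat ω (l + 1) - 2 ^ (D.g b.1.toNat b.2.toNat (l + 1) + X) *
        D.sh b.1.toNat b.2.toNat ω' (l + 1)| ≤ W := by
      rw [← mul_sub, abs_mul, abs_of_pos (by positivity), pow_add]
      have hp : (0 : ℝ) < 2 ^ X := by positivity
      have e3 := mul_le_mul_of_nonneg_right e1 hp.le
      have e4 : C * ((N + 1) * Real.exp (C₃ * z)) ^ Dg * (1 / 2 ^ X) * 2 ^ X = W := by
        rw [hW]
        field_simp
      rw [e4] at e3
      linarith
    have e3 : |(dgb D m X b ω l : ℝ) - dgb D m X b ω' l| ≤ W + 1 := by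
      unfold dgb
      have f1 := Int.floor_le ((2 : ℝ) ^ (D.g b.1.toNat b.2.toNat (l + 1) + X) *
        D.sh b.1.toNat b.2.toNat ω (l + 1))
      have f2 := Int.lt_floor_add_one ((2 : ℝ) ^ (D.g b.1.toNat b.2.toNat (l + 1) + X) *
        D.sh b.1.toNat b.2.toNat ω (l + 1))
      have f3 := Int.floor_le ((2 : ℝ) ^ (D.g b.1.toNat b.2.toNat (l + 1) + X) *
        D.sh b.1.toNat b.2.toNat ω' (l + 1))
      have f4 := Int.lt_floor_add_one ((2 : ℝ) ^ (D.g b.1.toNat b.2.toNat (l + 1) + X) *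
        D.sh b.1.toNat b.2.toNat ω' (l + 1))
      obtain ⟨g1, g2⟩ := abs_le.1 e2
      rw [abs_le]
      constructor <;> linarith
    have e4 : (((|dgb D m X b ω l - dgb D m X b ω' l| : ℤ)) : ℝ) ≤ ((B : ℤ) : ℝ) := by
      push_cast
      linarith
    exact_mod_cast e4

end Pool.UP35
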